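import Mathlib

/-!
# Characters of abelian groups
-/

namespace Pool.Agent.NH34.BD

/-- Rational numbers modulo one as real numbers modulo one. -/
noncomputable def toReal : AddCircle (1 : ℚ) →+ AddCircle (1 : ℝ) :=
  QuotientAddGroup.map (AddSubgroup.zmultiples (1 : ℚ)) (AddSubgroup.zmultiples (1 : ℝ))
    (Rat.castHom ℝ).toAddMonoidHom (by
      rw [AddSubgroup.zmultiples_le]
      rw [AddSubgroup.mem_comap, AddSubgroup.mem_zmultiples_iff]
      exact ⟨1, by simp⟩)

lemma toReal_inj {x : AddCircle (1 : ℚ)} (h : toReal x = 0) : x = 0 := by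
  induction x using QuotientAddGroup.induction_on with
  | H q =>
    change (QuotientAddGroup.mk ((q : ℚ) : ℝ) : AddCircle (1 : ℝ)) = 0 at h
    rw [QuotientAddGroup.eq_zero_iff, AddSubgroup.mem_zmultiples_iff] at h ⊢
    obtain ⟨k, hk⟩ := h
    refine ⟨k, ?_⟩
    have h1 : ((k • (1 : ℚ) : ℚ) : ℝ) = ((q : ℚ) : ℝ) := by
      rw [← hk]
      simp
    exact_mod_cast h1

/-- Characters separate the elements which are not contained in a subgroup. -/
theorem exists_char {A : Type} [AddCommGroup A] (R : AddSubgroup A) {x : A} (hx : x ∉ R) :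
    ∃ ψ : A → ℂ, (∀ a b, ψ (a + b) = ψ a * ψ b) ∧ (∀ a ∈ R, ψ a = 1) ∧ (∀ a, ψ a ≠ 0) ∧
      ψ x ≠ 1 := by
  have hq : (QuotientAddGroup.mk x : A ⧸ R) ≠ 0 := fun h => hx ((QuotientAddGroup.eq_zero_iff x).1 h)
  obtain ⟨c, hc⟩ := CharacterModule.exists_character_apply_ne_zero_of_ne_zero hq
  refine ⟨fun a => (AddCircle.toCircle (toReal (c (QuotientAddGroup.mk a : A ⧸ R))) : ℂ),
    fun a b => ?_, fun a ha => ?_, fun a => ?_, fun h => ?_⟩
  · change (AddCircle.toCircle (toReal (c (QuotientAddGroup.mk (a + b) : A ⧸ R))) : ℂ) = _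
    rw [QuotientAddGroup.mk_add, map_add, map_add, AddCircle.toCircle_add]
    rfl
  · change (AddCircle.toCircle (toReal (c (QuotientAddGroup.mk a : A ⧸ R))) : ℂ) = 1
    rw [(QuotientAddGroup.eq_zero_iff a).2 ha, map_zero, map_zero, AddCircle.toCircle_zero]
    rfl
  · exact Circle.coe_ne_zero _
  · apply hc
    apply toReal_inj
    apply AddCircle.injective_toCircle one_ne_zero
    rw [AddCircle.toCircle_zero]
    exact Circle.ext h

end Pool.Agent.NH34.BD
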