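import Pool.Agent.Y212.RM.Sym
import Pool.Agent.Y785.RM.Cartan

/-!
# Triples: integral eigenvalues and traces
-/

namespace Pool.Agent.NH34.BD

open Module Pool.Agent.Y114.RM Pool.Agent.Y212.RM Pool.Agent.Y785.RM

section gen

variable {K : Type} [Field K] [CharZero K] {M : Type} [AddCommGroup M] [Module K M]
  [FiniteDimensional K M]

/-- The eigenvalue of a primitive vector is a natural number. -/
theorem nat_of_killed {e f h : End K M} (r1 : e * f - f * e = h) (r2 : h * e - e * h = 2 • e)
    (r3 : h * f - f * h = -(2 • f)) {x : M} (hx : x ≠ 0) (hex : e x = 0) {c : K}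
    (hh : h x = c • x) : ∃ n : ℕ, c = n := by
  by_cases h0 : h = 0
  · refine ⟨0, ?_⟩
    rw [h0, LinearMap.zero_apply] at hh
    rw [Nat.cast_zero]
    exact (smul_eq_zero.1 hh.symm).resolve_right hx
  · let _ : LieRing (Module.End K M) := LieRing.ofAssociativeRing
    have t : IsSl2Triple h e f := ⟨h0, r1, r2, r3⟩
    have P : t.HasPrimitiveVectorWith x c :=
      ⟨hx, by rw [Module.End.lie_apply, hh], by rw [Module.End.lie_apply, hex]⟩
    exact P.exists_nat

/-- The eigenvalues of `h` are integers. -/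
theorem int_of_eigen {e f h : End K M} (r1 : e * f - f * e = h) (r2 : h * e - e * h = 2 • e)
    (r3 : h * f - f * h = -(2 • f)) {x : M} (hx : x ≠ 0) {c : K} (hh : h x = c • x) :
    ∃ z : ℤ, c = z := by
  have key : ∀ k : ℕ, h ((e ^ k) x) = (c + 2 * k) • (e ^ k) x := by
    intro k
    induction k with
    | zero => rw [pow_zero, Module.End.one_apply, hh, Nat.cast_zero, mul_zero, add_zero]
    | succ k ih =>
      have h1 := LinearMap.congr_fun r2 ((e ^ k) x)
      rw [LinearMap.sub_apply, Module.End.mul_apply, Module.End.mul_apply, ih, map_smul,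
        LinearMap.smul_apply, sub_eq_iff_eq_add] at h1
      rw [pow_succ', Module.End.mul_apply, h1, ← Nat.cast_smul_eq_nsmul K, ← add_smul]
      congr 1
      push_cast
      ring
  have hex : ∃ k : ℕ, (e ^ k) x = 0 := by
    by_contra hcon
    push Not at hcon
    have h1 : Set.range (fun k : ℕ => c + 2 * (k : K)) ⊆ {μ | h.HasEigenvalue μ} := by
      rintro _ ⟨k, rfl⟩
      exact Module.End.hasEigenvalue_of_hasEigenvector
        ⟨Module.End.mem_eigenspace_iff.2 (key k), hcon k⟩
    have h2 : (Set.range (fun k : ℕ => c + 2 * (k : K))).Infinite := by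
      apply Set.infinite_range_of_injective
      intro a b hab
      have h3 : (2 : K) * a = 2 * b := add_left_cancel hab
      exact_mod_cast mul_left_cancel₀ two_ne_zero h3
    exact h2 ((Module.End.finite_hasEigenvalue h).subset h1)
  classical
  obtain ⟨k, hk⟩ : ∃ k, Nat.find hex = k + 1 := by
    rcases Nat.eq_zero_or_pos (Nat.find hex) with h0 | h0
    · have h1 := Nat.find_spec hex
      rw [h0, pow_zero] at h1
      exact absurd h1 hx
    · exact ⟨Nat.find hex - 1, by omega⟩
  have h1 : (e ^ k) x ≠ 0 := Nat.find_min hex (by omega)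
  have h2 : e ((e ^ k) x) = 0 := by
    have h3 := Nat.find_spec hex
    rw [hk, pow_succ', Module.End.mul_apply] at h3
    exact h3
  obtain ⟨n, hn⟩ := nat_of_killed r1 r2 r3 h1 h2 (key k)
  refine ⟨(n : ℤ) - 2 * k, ?_⟩
  push_cast
  rw [← hn]
  ring

/-- The trace of the square of `h`. -/
theorem trace_sq {e f h : End K M} (r1 : e * f - f * e = h) (r2 : h * e - e * h = 2 • e)
    (r3 : h * f - f * h = -(2 • f)) (hd : ⨆ μ, End.eigenspace h μ = ⊤) (h0 : h ≠ 0) :
    ∃ n : ℕ, 0 < n ∧ LinearMap.trace K M (h * h) = n := by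
  obtain ⟨ι, _, b, w, hb⟩ := single (a := h) hd
  have h1 : ∀ i, ∃ z : ℤ, w i = z := fun i => int_of_eigen r1 r2 r3 (b.ne_zero i) (hb i)
  choose z hz using h1
  have h2 : IsEB b (h * h) (fun i => w i * w i) := by
    intro i
    rw [Module.End.mul_apply, hb i, map_smul, hb i, smul_smul]
  refine ⟨∑ i, (z i).natAbs * (z i).natAbs, ?_, ?_⟩
  · rw [Nat.pos_iff_ne_zero]
    intro h3
    apply h0
    refine b.ext fun i => ?_
    rw [hb i, hz i]
    have h4 := (Finset.sum_eq_zero_iff.1 h3) i (Finset.mem_univ i)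
    have h5 : z i = 0 := by
      rcases mul_eq_zero.1 h4 with h | h <;> exact Int.natAbs_eq_zero.1 h
    rw [h5, Int.cast_zero, zero_smul, LinearMap.zero_apply]
  · rw [trace_eb h2]
    push_cast
    refine Finset.sum_congr rfl fun i _ => ?_
    rw [hz i]
    have h3 : ((z i).natAbs : ℤ) * (z i).natAbs = z i * z i := Int.natAbs_mul_self' (z i)
    have h4 := congrArg (Int.cast : ℤ → K) h3
    rw [Int.cast_mul, Int.cast_mul, Int.cast_natCast] at h4
    exact h4.symm

/-- The trace of the product with `h`. -/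
theorem trace_mul {e f h a : End K M} {c : K} (r1 : e * f - f * e = h)
    (ha : a * e - e * a = c • e) :
    LinearMap.trace K M (h * a) = c * LinearMap.trace K M (e * f) := by
  have h1 : e * a = a * e - c • e := by rw [← ha]; abel
  have h2 : h * a = e * (f * a) - (f * a * e - c • (f * e)) := by
    rw [← r1, sub_mul, mul_assoc, mul_assoc, h1, mul_sub, mul_smul_comm, mul_assoc]
  have h3 : LinearMap.trace K M (f * a * e) = LinearMap.trace K M (e * (f * a)) :=
    LinearMap.trace_mul_comm K _ _
  have h4 : LinearMap.trace K M (f * e) = LinearMap.trace K M (e * f) :=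
    LinearMap.trace_mul_comm K _ _
  rw [h2, LinearMap.map_sub, LinearMap.map_sub, LinearMap.map_smul, h3, h4, smul_eq_mul]
  ring

end gen

end Pool.Agent.NH34.BD
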