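import Pool.Agent.NH34.BD.Wt
import Pool.Agent.NH34.BD.Sl
import Pool.Agent.W548.Odd.Basic

/-!
# Reductive subalgebras of maximal rank are centralizers
-/

set_option linter.unusedSectionVars false

namespace Pool.Agent.NH34.BD

open Module Pool.Agent.Y114.RM Pool.Agent.Y212.RM Pool.Agent.Y785.RM

variable {V : Type} [AddCommGroup V] [Module ℂ V] [FiniteDimensional ℂ V]
  {G L t : Submodule ℂ (End ℂ V)}

/-- The roots of `L`. -/
def Roots (L t : Submodule ℂ (End ℂ V)) : Set (t → ℂ) :=
  {χ | χ ≠ 0 ∧ ∃ X ∈ L, X ≠ 0 ∧ Wt t χ X}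

/-- `-χ` is a root. -/
lemma roots_neg (T : Tor L t) {χ : t → ℂ} (h : χ ∈ Roots L t) : -χ ∈ Roots L t := by
  obtain ⟨h0, X, hX, hX0, hw⟩ := h
  obtain ⟨f, hf, hfw, htr⟩ := T.exists_dual hX hw hX0
  refine ⟨neg_ne_zero.2 h0, f, hf, ?_, fun a => hfw a⟩
  rintro rfl
  rw [mul_zero, LinearMap.map_zero] at htr
  exact htr rfl

lemma sum_neg_list {A : Type} [AddCommGroup A] (l : List A) : (l.map Neg.neg).sum = -l.sum := by
  induction l with
  | nil => simp
  | cons a l ih => rw [List.map_cons, List.sum_cons, List.sum_cons, ih, neg_add]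

/-- The elements of the group generated by the roots are sums of roots. -/
lemma exists_list (T : Tor L t) {χ : t → ℂ} (h : χ ∈ AddSubgroup.closure (Roots L t)) :
    ∃ l : List (t → ℂ), (∀ ψ ∈ l, ψ ∈ Roots L t) ∧ l.sum = χ := by
  induction h using AddSubgroup.closure_induction with
  | mem x hx => exact ⟨[x], by simpa using hx, by simp⟩
  | zero => exact ⟨[], by simp, rfl⟩
  | add x y _ _ hx hy =>
    obtain ⟨l, hl, rfl⟩ := hx
    obtain ⟨m, hm, rfl⟩ := hy
    refine ⟨l ++ m, fun ψ hψ => ?_, List.sum_append⟩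
    rcases List.mem_append.1 hψ with h | h
    · exact hl ψ h
    · exact hm ψ h
  | neg x _ hx =>
    obtain ⟨l, hl, rfl⟩ := hx
    refine ⟨l.map Neg.neg, fun ψ hψ => ?_, sum_neg_list l⟩
    obtain ⟨φ, hφ, rfl⟩ := List.mem_map.1 hψ
    exact roots_neg T (hl φ hφ)

/-- The weights of `L'` are in the group generated by the roots of `L`, if the endomorphisms which
commute with `L` commute with `L'`. -/
lemma mem_closure (T : Tor L t) {L' : Submodule ℂ (End ℂ V)}
    (h4 : ∀ Y : End ℂ V, (∀ X ∈ L, X * Y = Y * X) → ∀ X ∈ L', X * Y = Y * X)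
    {χ : t → ℂ} {X : End ℂ V} (hX : X ∈ L') (hX0 : X ≠ 0) (hw : Wt t χ X) :
    χ ∈ AddSubgroup.closure (Roots L t) := by
  by_contra hcon
  obtain ⟨ψ, p1, p2, p3, p4⟩ := exists_char _ hcon
  obtain ⟨s, s', s1, s2, s3⟩ := exists_op T.diag T.comm ψ p1 p3
  have hs : ∀ Z ∈ L, Z * s = s * Z := by
    refine wt_induction t T.diag T.comm L (fun a ha Z hZ => T.lie a (T.le ha) Z hZ)
      (P := fun Z => Z * s = s * Z) ?_ ?_ ?_
    · show 0 * s = s * 0
      rw [zero_mul, mul_zero]
    · intro Z Y _ _ hZ hY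
      have hZ' : Z * s = s * Z := hZ
      have hY' : Y * s = s * Y := hY
      show (Z + Y) * s = s * (Z + Y)
      rw [add_mul, mul_add, hZ', hY']
    · intro φ Z hZ hφ
      show Z * s = s * Z
      by_cases hZ0 : Z = 0
      · rw [hZ0, zero_mul, mul_zero]
      have h5 : ψ φ = 1 := by
        by_cases h0 : φ = 0
        · rw [h0]
          exact p2 0 (AddSubgroup.zero_mem _)
        · exact p2 φ (AddSubgroup.subset_closure ⟨h0, Z, hZ, hZ0, hφ⟩)
      rw [s3 φ Z hφ, h5, one_smul]
  have h5 := h4 s hs X hX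
  have h6 := s3 χ X hw
  rw [← h5] at h6
  have h7 : (1 - ψ χ) • (X * s) = 0 := by rw [sub_smul, one_smul, ← h6, sub_self]
  rcases smul_eq_zero.1 h7 with h | h
  · exact p4 (sub_eq_zero.1 h).symm
  · apply hX0
    have h8 : X * s * s' = X := by rw [mul_assoc, s1, mul_one]
    rw [← h8, h, zero_mul]

lemma adE_rel {X Y Z : End ℂ V} (h : X * Y - Y * X = Z) : adE X * adE Y - adE Y * adE X = adE Z := by
  rw [adE_comm, h]

lemma adE_nsmul (X : End ℂ V) : adE (2 • X) = 2 • adE X := by
  refine LinearMap.ext fun Y => ?_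
  change (2 • X) * Y - Y * (2 • X) = 2 • (X * Y - Y * X)
  rw [smul_mul_assoc, mul_smul_comm, smul_sub]

lemma adE_neg (X : End ℂ V) : adE (-X) = -adE X := by
  refine LinearMap.ext fun Y => ?_
  change (-X) * Y - Y * (-X) = -(X * Y - Y * X)
  rw [neg_mul, mul_neg]
  abel

/-- **Reductive subalgebras of maximal rank are centralizers.** -/
theorem core (T : Tor G t) (hLG : L ≤ G) (hL : IsLie L) (htL : t ≤ L) (hND : NonDeg L)
    {L' : Submodule ℂ (End ℂ V)} (h1 : L ≤ L') (h2 : L' ≤ G)
    (h3 : ∀ X ∈ L, ∀ Y ∈ L', X * Y - Y * X ∈ L')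
    (h4 : ∀ Y : End ℂ V, (∀ X ∈ L, X * Y = Y * X) → ∀ X ∈ L', X * Y = Y * X) : L' ≤ L := by
  classical
  have TL : Tor L t := ⟨hL, hND, htL, T.diag, T.comm, fun x hx => T.cen x (hLG hx)⟩
  -- the orthogonal complement of `L` in `L'`
  let M : Submodule ℂ (End ℂ V) :=
    { carrier := {X | X ∈ L' ∧ ∀ Y ∈ L, LinearMap.trace ℂ V (X * Y) = 0}
      add_mem' := by
        rintro a b ⟨ha, ha'⟩ ⟨hb, hb'⟩
        refine ⟨L'.add_mem ha hb, fun Y hY => ?_⟩
        rw [add_mul, LinearMap.map_add, ha' Y hY, hb' Y hY, add_zero]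
      zero_mem' := ⟨L'.zero_mem, fun Y _ => by rw [zero_mul, LinearMap.map_zero]⟩
      smul_mem' := by
        rintro c a ⟨ha, ha'⟩
        refine ⟨L'.smul_mem c ha, fun Y hY => ?_⟩
        rw [smul_mul_assoc, LinearMap.map_smul, ha' Y hY, smul_zero] }
  have hM : ∀ a ∈ L, ∀ X ∈ M, a * X - X * a ∈ M := by
    rintro a ha X ⟨hX, hX'⟩
    refine ⟨h3 a ha X hX, fun Y hY => ?_⟩
    have e1 : (a * X - X * a) * Y = (a * (X * Y) - (X * Y) * a) - X * (a * Y - Y * a) := by
      noncomm_ring
    rw [e1, LinearMap.map_sub, trace_lie_zero, hX' _ (hL a ha Y hY), sub_zero]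
  -- it is zero
  have key : ∀ X ∈ M, X = 0 := by
    by_contra hcon
    have hex : ∃ k : ℕ, ∃ (β : t → ℂ) (X : End ℂ V), X ∈ M ∧ X ≠ 0 ∧ Wt t β X ∧
        ∃ l : List (t → ℂ), (∀ ψ ∈ l, ψ ∈ Roots L t) ∧ l.sum = β ∧ l.length = k := by
      by_contra hno
      apply hcon
      refine wt_induction t T.diag T.comm M (fun a ha X hX => hM a (htL ha) X hX)
        (P := fun X => X = 0) rfl ?_ ?_
      · intro X Y _ _ hX hY
        have hX' : X = 0 := hX
        have hY' : Y = 0 := hY
        show X + Y = 0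
        rw [hX', hY', add_zero]
      · intro β X hX hw
        show X = 0
        by_contra hX0
        obtain ⟨l, hl, hs⟩ := exists_list TL (mem_closure TL h4 hX.1 hX0 hw)
        exact hno ⟨l.length, β, X, hX, hX0, hw, l, hl, hs, rfl⟩
    obtain ⟨β, X, hX, hX0, hw, l, hl, hsum, hlen⟩ := Nat.find_spec hex
    have hmin := fun k (hk : k < Nat.find hex) => Nat.find_min hex hk
    -- the weight is not zero
    obtain ⟨a0, ha0⟩ : ∃ a : t, β a ≠ 0 := by
      by_contra hno
      push Not at hno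
      have e1 : X ∈ t := by
        refine T.cen X (h2 hX.1) fun a ha => ?_
        have e2 := hw ⟨a, ha⟩
        rw [hno, zero_smul] at e2
        exact sub_eq_zero.1 e2
      exact hX0 (hND X (htL e1) hX.2)
    obtain ⟨f', hf', hfw', htr', h', hh't, hh'0, r1', r2', r3'⟩ :=
      T.exists_triple (h2 hX.1) hw hX0 ha0
    obtain ⟨N', hN', hN'e⟩ := trace_sq r1' r2' r3' (T.diag h' hh't) hh'0
    have hβ : β ⟨h', hh't⟩ = 2 := by
      have e1 := hw ⟨h', hh't⟩
      change h' * X - X * h' = _ at e1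
      rw [r2', ← ofNat_smul_eq_nsmul ℂ] at e1
      have e2 : (2 - β ⟨h', hh't⟩) • X = 0 := by
        rw [sub_smul, sub_eq_zero]
        exact e1
      rcases smul_eq_zero.1 e2 with h | h
      · exact (sub_eq_zero.1 h).symm
      · exact absurd h hX0
    have hτ' : LinearMap.trace ℂ V (X * f') = N' / 2 := by
      have e1 := trace_mul r1' (a := h') (c := 2) (by
        rw [r2', ← ofNat_smul_eq_nsmul ℂ])
      rw [hN'e] at e1
      rw [e1]
      ring
    -- each root in the list is not positive on `h'`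
    have hneg : ∀ ψ ∈ l, ∃ q : ℝ, 0 ≤ q ∧ ψ ⟨h', hh't⟩ = -(q : ℂ) := by
      intro ψ hψ
      obtain ⟨hψ0, e, he, he0, hwe⟩ := hl ψ hψ
      obtain ⟨a1, ha1⟩ : ∃ a : t, ψ a ≠ 0 := by
        by_contra hno
        push Not at hno
        exact hψ0 (funext hno)
      obtain ⟨f, hf, hfw, htr, h, hht, hh0, r1, r2, r3⟩ := TL.exists_triple he hwe he0 ha1
      obtain ⟨N, hN, hNe⟩ := trace_sq r1 r2 r3 (T.diag h hht) hh0
      have hτ : LinearMap.trace ℂ V (e * f) = N / 2 := by
        have e1 := trace_mul r1 (a := h) (c := 2) (by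
          rw [r2, ← ofNat_smul_eq_nsmul ℂ])
        rw [hNe] at e1
        rw [e1]
        ring
      -- `f` commutes with `X`
      have hfX : f * X - X * f = 0 := by
        by_contra hne
        have hpos : 0 < Nat.find hex := by
          rw [← hlen]
          exact List.length_pos_of_mem hψ
        refine hmin (Nat.find hex - 1) (by omega) ⟨β - ψ, f * X - X * f, hM f hf X hX, hne, ?_,
          l.erase ψ, fun φ hφ => hl φ (List.mem_of_mem_erase hφ), ?_, ?_⟩
        · intro a
          have e1 := hw a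
          have e2 := hfw a
          have e3 : (a : End ℂ V) * (f * X - X * f) - (f * X - X * f) * a =
              (a * f - f * a) * X + f * (a * X - X * a) - (a * X - X * a) * f -
                X * (a * f - f * a) := by noncomm_ring
          rw [e3, e1, e2, smul_mul_assoc, smul_mul_assoc, mul_smul_comm, mul_smul_comm]
          rw [Pi.sub_apply, sub_smul, neg_smul, neg_smul, smul_sub, smul_sub]
          abel
        · have e1 : (ψ :: l.erase ψ).sum = l.sum := (List.perm_cons_erase hψ).sum_eq.symm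
          rw [List.sum_cons, hsum] at e1
          rw [← e1]
          abel
        · rw [List.length_erase_of_mem hψ, hlen]
      -- the eigenvalue
      obtain ⟨n, hn⟩ := nat_of_killed (e := adE f) (f := adE e) (h := adE (-h)) (x := X)
        (c := -β ⟨h, hht⟩) (by
          apply adE_rel
          rw [← r1]
          abel) (by
          rw [← adE_nsmul]
          apply adE_rel
          have e1 : (-h) * f - f * (-h) = -(h * f - f * h) := by noncomm_ring
          rw [e1, r3, neg_neg]) (by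
          rw [← adE_nsmul, ← adE_neg]
          apply adE_rel
          have e1 : (-h) * e - e * (-h) = -(h * e - e * h) := by noncomm_ring
          rw [e1, r2]) hX0 hfX (by
          rw [adE_neg, LinearMap.neg_apply, adE_apply, neg_smul]
          rw [hw ⟨h, hht⟩])
      have hβh : β ⟨h, hht⟩ = -(n : ℂ) := by rw [← hn, neg_neg]
      -- compare the traces
      have t1 := trace_mul r1 (a := h') (c := ψ ⟨h', hh't⟩) (hwe ⟨h', hh't⟩)
      have t2 := trace_mul r1' (a := h) (c := β ⟨h, hht⟩) (hw ⟨h, hht⟩)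
      rw [LinearMap.trace_mul_comm, t2, hτ', hτ, hβh] at t1
      have hN0 : (N : ℂ) ≠ 0 := by exact_mod_cast hN.ne'
      refine ⟨(n : ℝ) * N' / N, by positivity, ?_⟩
      push_cast
      field_simp
      field_simp at t1
      linear_combination -t1
    have hfin : ∃ q : ℝ, 0 ≤ q ∧ β ⟨h', hh't⟩ = -(q : ℂ) := by
      rw [← hsum]
      clear hsum hlen hl
      induction l with
      | nil => exact ⟨0, le_rfl, by simp⟩
      | cons a l ih =>
        obtain ⟨q, hq, e1⟩ := ih (fun ψ hψ => hneg ψ (List.mem_cons_of_mem _ hψ))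
        obtain ⟨q', hq', e2⟩ := hneg a List.mem_cons_self
        refine ⟨q' + q, by positivity, ?_⟩
        rw [List.sum_cons, Pi.add_apply, e1, e2]
        push_cast
        ring
    obtain ⟨q, hq, e1⟩ := hfin
    rw [hβ] at e1
    have e2 : (2 : ℝ) = -q := by exact_mod_cast e1
    linarith
  -- conclusion
  intro X hX
  obtain ⟨a, ha, hat⟩ := Pool.Agent.W548.Odd.exists_repr (W := L) hND
    ((LinearMap.trace ℂ V) ∘ₗ LinearMap.mulLeft ℂ X)
  have e1 : X - a ∈ M := by
    refine ⟨L'.sub_mem hX (h1 ha), fun Y hY => ?_⟩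
    have e2 := hat Y hY
    rw [LinearMap.comp_apply, LinearMap.mulLeft_apply] at e2
    rw [sub_mul, LinearMap.map_sub, e2, sub_self]
  have e2 := key _ e1
  rw [sub_eq_zero] at e2
  rw [e2]
  exact ha

end Pool.Agent.NH34.BD
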