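import Pool.Agent.Y114.RM.Semi
import Pool.Agent.Y114.RM.All3
import Pool.Agent.NH34.BD.Core

/-!
# One Frobenius torus of maximal rank: the Tate tensors and the endomorphisms
-/

set_option autoImplicit false
set_option linter.unusedSectionVars false
set_option linter.unusedVariables false

namespace Pool.Agent.NH34.BD

open Pool.Agent

open NumberField IsDedekindDomain Module Polynomial TensorProduct Pool.Agent.TH118.SG
  Pool.Agent.Y114.MU Pool.Agent.Y114.TF Pool.Agent.Y114.GF Pool.Agent.H204R3.GP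
open Pool.Agent.W569.FM Pool.Agent.W571.FM Pool.Agent.Y115.R Pool.Agent.Y115.T Pool.Agent.Y115.Chi
open Pool.Agent.Y114.RM Pool.Agent.Y212.RM

section comm

variable {k : Type} [Field k] {C : Type} [Field C] [Algebra k C] {V : Type} [AddCommGroup V]
  [Module k V] [FiniteDimensional k V]

/-- If all elements of `A` commute with all elements of `B` this holds after base change. -/
theorem bcS_comm2 {A B : Submodule k (End k V)} (h : ∀ X ∈ A, ∀ Y ∈ B, X * Y = Y * X) :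
    ∀ X ∈ bcS C A, ∀ Y ∈ bcS C B, X * Y = Y * X := by
  intro X hX Y hY
  induction hY using Submodule.span_induction with
  | mem Y hY =>
    obtain ⟨Z, hZ, rfl⟩ := hY
    exact bcS_comm (fun X hX => h X hX Z hZ) X hX
  | zero => rw [zero_mul, mul_zero]
  | add Y Z _ _ hY hZ => rw [add_mul, mul_add, hY, hZ]
  | smul c Y _ hY => rw [smul_mul_assoc, mul_smul_comm, hY]

/-- The centralizer of the base change is the base change of the centralizer. -/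
theorem mem_bcS_comm (hbc : S_BC) {L : Submodule k (End k V)} {Y : End C (C ⊗[k] V)}
    (hY : ∀ X ∈ bcS C L, X * Y = Y * X) : Y ∈ bcS C (comm L) := by
  rw [(hbc k C V (comm L)).1]
  intro π X hX
  rw [← pM_bc_mul, hY _ (mem_bcS hX), pM_mul_bc]

/-- The elements of `G` which commute with the elements of `A`. -/
def cenOf (G A : Submodule k (End k V)) : Submodule k (End k V) where
  carrier := {X | X ∈ G ∧ ∀ Y ∈ A, X * Y = Y * X}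
  add_mem' := by
    rintro a b ⟨ha, ha'⟩ ⟨hb, hb'⟩
    exact ⟨G.add_mem ha hb, fun Y hY => by rw [mul_add, add_mul, ha' Y hY, hb' Y hY]⟩
  zero_mem' := ⟨G.zero_mem, fun Y _ => by rw [mul_zero, zero_mul]⟩
  smul_mem' := by
    rintro c a ⟨ha, ha'⟩
    exact ⟨G.smul_mem c ha, fun Y hY => by rw [mul_smul_comm, smul_mul_assoc, ha' Y hY]⟩

theorem cenOf_lie {G A : Submodule k (End k V)} (hG : IsLie G) : IsLie (cenOf G A) := by
  rintro X ⟨hX, hX'⟩ Y ⟨hY, hY'⟩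
  refine ⟨hG X hX Y hY, fun Z hZ => ?_⟩
  have h1 := hX' Z hZ
  have h2 := hY' Z hZ
  have h3 : X * Y * Z = Z * (X * Y) := by rw [mul_assoc, h2, ← mul_assoc, h1, mul_assoc]
  have h4 : Y * X * Z = Z * (Y * X) := by rw [mul_assoc, h1, ← mul_assoc, h2, mul_assoc]
  rw [sub_mul, mul_sub, h3, h4]

/-- **Reductive subalgebras of maximal rank are centralizers**, over a field which is not
algebraically closed. -/
theorem core_bc (hbc : S_BC) [CharZero k] [Algebra k ℂ] {G L : Submodule k (End k V)}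
    (hG : IsLie G) (hGN : NonDeg (bcS ℂ G)) (hLG : L ≤ G) (hL : IsLie L) (hND : NonDeg (bcS ℂ L))
    {t : Submodule ℂ (End ℂ (ℂ ⊗[k] V))} (htL : t ≤ bcS ℂ L)
    (hdiag : ∀ a ∈ t, ⨆ μ, End.eigenspace a μ = ⊤) (hcomm : ∀ a ∈ t, ∀ b ∈ t, a * b = b * a)
    (hcen : ∀ x ∈ bcS ℂ G, (∀ a ∈ t, a * x = x * a) → x ∈ t) :
    ∀ X ∈ G, (∀ Y ∈ comm L, X * Y = Y * X) → X ∈ L := by
  have hLL' : L ≤ cenOf G (comm L) := fun X hX => ⟨hLG hX, fun Y hY => hY X hX⟩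
  have hL'G : cenOf G (comm L) ≤ G := fun X hX => hX.1
  have hL'lie : IsLie (bcS ℂ (cenOf G (comm L))) := (hbc k ℂ V _).2.1 (cenOf_lie hG)
  have T : Tor (bcS ℂ G) t :=
    ⟨(hbc k ℂ V G).2.1 hG, hGN, htL.trans (bcS_mono hLG), hdiag, hcomm, hcen⟩
  have h1 : bcS ℂ (cenOf G (comm L)) ≤ bcS ℂ L := by
    refine core T (bcS_mono hLG) ((hbc k ℂ V L).2.1 hL) htL hND (bcS_mono hLL') (bcS_mono hL'G)
      (fun X hX Y hY => hL'lie X (bcS_mono hLL' hX) Y hY) fun Y hY => ?_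
    intro X hX
    exact bcS_comm2 (A := cenOf G (comm L)) (B := comm L) (fun X hX Y hY => hX.2 Y hY) X hX Y
      (mem_bcS_comm hbc hY)
  have h2 : L = cenOf G (comm L) :=
    (hbc k ℂ V (cenOf G (comm L))).2.2.2.2.1 L hLL' (le_antisymm (bcS_mono hLL') h1)
  intro X hX hXY
  rw [h2]
  exact ⟨hX, hXY⟩

end comm

section main

variable {F : Type} [Field F] [NumberField F] {ι : Type} [Fintype ι] [DecidableEq ι] {n : ι → ℕ}
  {w : ι → ℤ} {ℓ : ℕ} [hℓ : Fact ℓ.Prime] {Γ : Type} [Group Γ] [TopologicalSpace Γ]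
  [IsTopologicalGroup Γ] [CompactSpace Γ]

/-- `Y` commutes with a subgroup of finite index. -/
def CommFinIndex {k : Type} [Field k] {V : Type} [AddCommGroup V] [Module k V] {Γ : Type} [Group Γ]
    (ρ : Representation k Γ V) (Y : End k V) : Prop :=
  ∃ Δ : Subgroup Γ, Δ.FiniteIndex ∧ ∀ γ ∈ Δ, Y * ρ γ = ρ γ * Y

theorem gal_main (h : Inputs) (h2 : Inputs2) (ρ : Reps Γ n ℓ) (hρ : Conts ρ)
    (s : Gal(AlgebraicClosure F/F) →* Γ) (hs : Continuous s)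
    (𝔤 : Submodule ℚ_[ℓ] (End ℚ_[ℓ] (∀ i, Fin (n i) → ℚ_[ℓ]))) (h𝔤 : IsMotivic ρ 𝔤)
    (P : HeightOneSpectrum (𝓞 F) → ι → ℚ[X])
    (T : Set ℕ) (hT3 : 3 ≤ T.encard) (hT : ∀ p ∈ T, p.Prime ∧ p ≠ ℓ ∧ UnramifiedIn F p)
    (hgood : ∀ p ∈ T, ∀ v, Above v p → GoodPlace (restrictTo ρ s) w v (P v))
    {p₀ : ℕ} (hp₀ : p₀ ∈ T) (hind₀ : IndependentPlaces P p₀) {v₀ : HeightOneSpectrum (𝓞 F)}
    (hv₀ : Above v₀ p₀) (r : ℕ) (hr : IndependentRoots r (P v₀))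
    (hrk : RankAtMost 𝔤 r) :
    FiniteIndexSemisimple (sumRep ρ) ∧
      ∀ X ∈ 𝔤, (∀ Y, CommFinIndex (sumRep ρ) Y → X * Y = Y * X) →
        ∀ (m : ℕ) (φ : Tensor ℚ_[ℓ] (∀ i, Fin (n i) → ℚ_[ℓ]) m),
          TateTensor (sumRep ρ) φ → KillsTensor X φ := by
  classical
  obtain ⟨j, hj⟩ := exists_j ℓ ℚ_[ℓ] ℚ (algebraMap ℚ ℚ_[ℓ]) (algebraMap ℚ ℂ)
  let _ : Algebra ℚ_[ℓ] ℂ := j.toAlgebra
  have hjalg : ∀ x : ℚ_[ℓ], algebraMap ℚ_[ℓ] ℂ x = j x := fun _ => rfl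
  obtain ⟨L, hL, hLie, hAd, hlog⟩ := h.lie ℚ_[ℓ] (∀ i, Fin (n i) → ℚ_[ℓ]) _ (sumRep ρ)
  have hLG : L ≤ 𝔤 := fun X hX => h𝔤.algebraic X fun m φ hφ => ((hL X).1 hX).2 m φ (h𝔤.tate m φ hφ)
  obtain ⟨ψ', hψc', hψ'⟩ := h.cont ℓ ι n _ ρ hρ L hAd
  let ψ : GF F →* ℚ_[ℓ]ˣ := ψ'.comp s
  have hψc : Continuous ψ := hψc'.comp hs
  have hψ : ∀ γ, (ψ γ : ℚ_[ℓ]) = detOn L (AdE (sumRep ρ (s γ)) (sumRep ρ (s γ)⁻¹)) (hAd (s γ)) :=
    fun γ => hψ' (s γ)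
  -- Frobenius elements
  have hfr₀ : ∀ v : HeightOneSpectrum (𝓞 F), ∃ (Q : Ideal (OO F)) (σ : GF F), Q.IsMaximal ∧
      cm Q = v.asIdeal ∧ FrobAt (Ideal.absNorm v.asIdeal) Q σ := fun v => frob_cm v
  choose Q₀ σ₀ hQ₀ hQ₀v hσ₀ using hfr₀
  have hinv : ∀ g : GF F, (ψ g⁻¹ : ℚ_[ℓ]) = (ψ g : ℚ_[ℓ])⁻¹ := by
    intro g
    rw [map_inv, Units.val_inv_eq_inv_val]
  -- places of good reduction
  have hgoodin : ∀ v : HeightOneSpectrum (𝓞 F), ∀ P', GoodPlace (restrictTo ρ s) w v P' →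
      (∀ Q : Ideal (OO F), Q.IsPrime → cm Q = v.asIdeal → ∀ g, InInertia Q g → ψ g = 1) ∧
      IsAlgebraic ℚ (ψ (σ₀ v) : ℚ_[ℓ]) ∧ ‖j (ψ (σ₀ v) : ℚ_[ℓ])‖ = 1 ∧
      ∃ u ∈ ratioGroup P', (u : ℂ) = j (ψ (σ₀ v)⁻¹ : ℚ_[ℓ]) := by
    rintro v P' hP'
    refine ⟨fun Q hQ hQv g hg => ?_, ?_⟩
    · apply Units.ext
      rw [hψ, Units.val_one]
      have h1 : sumRep ρ (s g) = 1 := by
        rw [← map_one (sumRep ρ)]
        refine sumRep_congr ρ fun i => ?_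
        rw [map_one]
        exact hP'.unramified i Q ⟨hQ, hQv⟩ g hg
      have h2 : sumRep ρ (s g)⁻¹ = 1 := by
        have h3 := Y114.RM.rho_mul_inv (sumRep ρ) (s g)
        rwa [h1, one_mul] at h3
      have h3 : ∀ (a b : End ℚ_[ℓ] (∀ i, Fin (n i) → ℚ_[ℓ])) (hab : ∀ X ∈ L, AdE a b X ∈ L),
          a = 1 → b = 1 → detOn L (AdE a b) hab = 1 := by
        rintro a b hab rfl rfl
        exact detOn_one hab
      exact h3 _ _ _ h1 h2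
    · have hfr : ∀ i, (ρ i (s (σ₀ v))⁻¹).charpoly = (P' i).map (algebraMap ℚ ℚ_[ℓ]) := by
        intro i
        have h1 := hP'.frobenius i (Q₀ v) ⟨(hQ₀ v).isPrime, hQ₀v v⟩ (σ₀ v) (hσ₀ v)
        rw [← h1, ← map_inv]
        rfl
      obtain ⟨h1, h3⟩ := h.adw ℓ j ι n (sumRep ρ (s (σ₀ v))⁻¹) (sumRep ρ ((s (σ₀ v))⁻¹)⁻¹)
        (fun i => ρ i (s (σ₀ v))⁻¹) P' (fun i => (q v : ℝ) ^ w i) (Y114.RM.rho_mul_inv _ _)
        (Y114.RM.rho_inv_mul _ _) (fun _ _ => rfl) hfr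
        hP'.pure L (fun X hX => h𝔤.parts X (hLG hX)) (hAd _)
      obtain ⟨u, hu, hu'⟩ := h2.ratio ℓ j ι n (sumRep ρ (s (σ₀ v))⁻¹)
        (sumRep ρ ((s (σ₀ v))⁻¹)⁻¹)
        (fun i => ρ i (s (σ₀ v))⁻¹) P' (Y114.RM.rho_mul_inv _ _) (Y114.RM.rho_inv_mul _ _)
        (fun _ _ => rfl) hfr
        L (fun X hX => h𝔤.parts X (hLG hX)) (hAd _)
      have hψ2 : (ψ (σ₀ v)⁻¹ : ℚ_[ℓ]) = detOn L (AdE (sumRep ρ (s (σ₀ v))⁻¹)
          (sumRep ρ ((s (σ₀ v))⁻¹)⁻¹)) (hAd _) := by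
        have h4 := hψ' (s (σ₀ v))⁻¹
        rw [← h4, ← map_inv s]
        rfl
      rw [← hψ2] at h1 h3 hu'
      refine ⟨?_, ?_, u, hu, hu'⟩
      · rw [hinv] at h1
        exact IsAlgebraic.inv_iff.1 h1
      · rw [hinv, map_inv₀, norm_inv, inv_eq_one] at h3
        exact h3
  -- rank data
  have hG₀ := hgood p₀ hp₀ v₀ hv₀
  obtain ⟨z, hz, hind⟩ := hr
  have hz' : ∀ i, End.HasEigenvalue ((sumRep ρ (s (σ₀ v₀))⁻¹).baseChange ℂ) (z i) := by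
    intro i
    obtain ⟨a, ha⟩ := hz i
    have h1 := hG₀.frobenius a (Q₀ v₀) ⟨(hQ₀ v₀).isPrime, hQ₀v v₀⟩ (σ₀ v₀) (hσ₀ v₀)
    have h3 : (ρ a (s (σ₀ v₀))⁻¹).charpoly = (P v₀ a).map (algebraMap ℚ ℚ_[ℓ]) := by
      rw [← h1, ← map_inv]
      rfl
    exact sumRep_eigen ρ (s (σ₀ v₀))⁻¹ h3 ha
  -- the character is a root of unity at `v₀`
  have htor : ∃ m : ℕ, 0 < m ∧ (algebraMap ℚ_[ℓ] ℂ (detOn L (AdE (sumRep ρ (s (σ₀ v₀))⁻¹)
      (sumRep ρ ((s (σ₀ v₀))⁻¹)⁻¹)) (hAd (s (σ₀ v₀))⁻¹))) ^ m = 1 := by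
    obtain ⟨M, hM, S, hS, hprod⟩ := prod_torsion ψ hψc T hT3 hT (fun v => ψ (σ₀ v)) (by
      intro p hp v hv Q hQ hQv
      have hin := (hgoodin v (P v) (hgood p hp v hv)).1
      exact ⟨hin Q hQ hQv, fun φ hφ => frob_value ψ v hin (hQ₀ v).isPrime hQ (hQ₀v v) hQv (hσ₀ v)
        hφ⟩) (fun p hp v hv => (hgoodin v (P v) (hgood p hp v hv)).2.1) j
      (fun p hp v hv => (hgoodin v (P v) (hgood p hp v hv)).2.2.1) p₀ hp₀
    have hu : ∀ v : HeightOneSpectrum (𝓞 F), ∃ u : ℂˣ, Above v p₀ →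
        u ∈ ratioGroup (P v) ∧ (u : ℂ) = j (ψ (σ₀ v)⁻¹ : ℚ_[ℓ]) := by
      intro v
      by_cases hv : Above v p₀
      · obtain ⟨u, hu, hu'⟩ := (hgoodin v (P v) (hgood p₀ hp₀ v hv)).2.2.2
        exact ⟨u, fun _ => ⟨hu, hu'⟩⟩
      · exact ⟨1, fun h => absurd h hv⟩
    choose u hu using hu
    obtain ⟨m, hm, hm'⟩ := hind₀ u (fun v hv => (hu v hv).1) ⟨M, hM, by
      have h3 : (∏ᶠ (v : HeightOneSpectrum (𝓞 F)) (_ : Above v p₀), u v) = ∏ v ∈ S, u v :=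
        finprod_cond_eq_prod_of_cond_iff _ fun {v} _ => (hS v).symm
      rw [h3]
      apply Units.ext
      rw [Units.val_pow_eq_pow_val, Units.coe_prod, Units.val_one]
      have h4 : ∏ v ∈ S, (u v : ℂ) = (j (((∏ v ∈ S, ψ (σ₀ v) : ℚ_[ℓ]ˣ)) : ℚ_[ℓ]))⁻¹ := by
        rw [Units.coe_prod, map_prod, ← Finset.prod_inv_distrib]
        refine Finset.prod_congr rfl fun v hv => ?_
        rw [(hu v ((hS v).1 hv)).2, hinv, map_inv₀]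
      rw [h4, inv_pow, ← map_pow, ← Units.val_pow_eq_pow_val, hprod, Units.val_one, map_one,
        inv_one]⟩ v₀ hv₀
    refine ⟨m, hm, ?_⟩
    have hψ2 : (ψ (σ₀ v₀)⁻¹ : ℚ_[ℓ]) = detOn L (AdE (sumRep ρ (s (σ₀ v₀))⁻¹)
        (sumRep ρ ((s (σ₀ v₀))⁻¹)⁻¹)) (hAd _) := by
      have h4 := hψ' (s (σ₀ v₀))⁻¹
      rw [← h4, ← map_inv s]
      rfl
    rw [← hψ2, hjalg, ← (hu v₀ hv₀).2, ← Units.val_pow_eq_pow_val, hm', Units.val_one]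
  -- the torus
  set t := tor ((sumRep ρ (s (σ₀ v₀))⁻¹).baseChange ℂ) with ht
  have hcen := torus_cen (sumRep ρ) h h2.jord h2.cartan hL hLG h𝔤.bracket h𝔤.nondeg h𝔤.algebraic
    hrk (s (σ₀ v₀))⁻¹ z hz' hind
  have htr := torus_local (sumRep ρ) h hL hLie hAd (s (σ₀ v₀))⁻¹ htor
  obtain ⟨hND, hproj⟩ := exists_proj h h2 hLie hLG h𝔤.bracket h𝔤.nondeg
    (tor_le (sumRep ρ) h hL (s (σ₀ v₀))⁻¹) (tor_diag _) (tor_comm _) hcen htr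
  -- semisimplicity
  obtain ⟨Δ', hΔ', hcomm⟩ := h2.tfr ℓ ι n _ ρ hρ (comm L) (comm_conj (sumRep ρ) hAd)
    (comm_order (sumRep ρ) h h2 hL)
  have hss : FiniteIndexSemisimple (sumRep ρ) := by
    intro Δ hΔ U hU
    obtain ⟨P, hP1, hP2, hP3⟩ := hproj U fun X hX => ((hL X).1 hX).1 U ⟨Δ, hΔ, hU⟩
    exact Pool.Agent.Y41.RM.exists_compl_of_commute (sumRep ρ) Δ Δ' hΔ' U hU P hP2 hP3
      fun s hs => (hcomm s hs P hP1).symm
  refine ⟨hss, fun X hX hXY => ?_⟩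
  have h5 : X ∈ L := by
    refine core_bc h.bc h𝔤.bracket ((h.bc _ ℂ _ 𝔤).2.2.1 h𝔤.nondeg) hLG hLie hND
      (tor_le (sumRep ρ) h hL (s (σ₀ v₀))⁻¹) (tor_diag _) (tor_comm _) hcen X hX fun Y hY => ?_
    exact hXY Y ⟨Δ', hΔ', fun γ hγ => (hcomm γ hγ Y hY).symm⟩
  exact ((hL X).1 h5).2

end main

end Pool.Agent.NH34.BD
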