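import Pool.Agent.Y212.RM.Sym
import Pool.Agent.Y785.RM.Cartan
import Pool.Agent.NH34.BD.Char

/-!
# The operator attached to a character of the group of weights
-/

namespace Pool.Agent.NH34.BD

open Module Pool.Agent.Y114.RM Pool.Agent.Y212.RM Pool.Agent.Y785.RM

variable {V : Type} [AddCommGroup V] [Module ℂ V] [FiniteDimensional ℂ V]

/-- The endomorphism `X` has the weight `χ`. -/
def Wt (t : Submodule ℂ (End ℂ V)) (χ : t → ℂ) (X : End ℂ V) : Prop :=
  ∀ a : t, (a : End ℂ V) * X - X * a = χ a • X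

/-- The operator attached to a character `ψ` of the group of weights: it is invertible, and it
commutes up to the factor `ψ χ` with the endomorphisms of weight `χ`. -/
theorem exists_op {t : Submodule ℂ (End ℂ V)} (hd : ∀ a ∈ t, ⨆ μ, End.eigenspace a μ = ⊤)
    (hc : ∀ a ∈ t, ∀ b ∈ t, a * b = b * a) (ψ : (t → ℂ) → ℂ) (h1 : ∀ a b, ψ (a + b) = ψ a * ψ b)
    (h2 : ∀ a, ψ a ≠ 0) : ∃ s s' : End ℂ V, s * s' = 1 ∧ s' * s = 1 ∧
      ∀ χ X, Wt t χ X → s * X = ψ χ • (X * s) := by
  classical
  obtain ⟨ι, _, b, w, hb⟩ := joint (fun a : t => (a : End ℂ V)) (fun a => hd a a.2)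
    (fun a a' => hc a a.2 a' a'.2)
  let s : End ℂ V := b.constr ℂ fun i => ψ (fun a => w a i) • b i
  let s' : End ℂ V := b.constr ℂ fun i => (ψ (fun a => w a i))⁻¹ • b i
  have hs : ∀ i, s (b i) = ψ (fun a => w a i) • b i := fun i => b.constr_basis ℂ _ i
  have hs' : ∀ i, s' (b i) = (ψ (fun a => w a i))⁻¹ • b i := fun i => b.constr_basis ℂ _ i
  refine ⟨s, s', ?_, ?_, ?_⟩
  · refine b.ext fun i => ?_
    rw [Module.End.mul_apply, hs', map_smul, hs, smul_smul, inv_mul_cancel₀ (h2 _), one_smul]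
    rfl
  · refine b.ext fun i => ?_
    rw [Module.End.mul_apply, hs, map_smul, hs', smul_smul, mul_inv_cancel₀ (h2 _), one_smul]
    rfl
  · intro χ X hX
    refine b.ext fun i => ?_
    rw [LinearMap.smul_apply, Module.End.mul_apply, Module.End.mul_apply, hs, map_smul, smul_smul,
      ← h1]
    have h3 : X (b i) = ∑ j, b.repr (X (b i)) j • b j := (b.sum_repr _).symm
    have h4 : ∀ j, b.repr (X (b i)) j ≠ 0 → (fun a => w a j) = χ + fun a => w a i := by
      intro j hj
      funext a
      have h5 := LinearMap.congr_fun (hX a) (b i)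
      rw [LinearMap.sub_apply, Module.End.mul_apply, Module.End.mul_apply, hb a i, map_smul,
        LinearMap.smul_apply, sub_eq_iff_eq_add, ← add_smul] at h5
      have h6 := coord_eb (hb a) j (X (b i))
      rw [h5, map_smul, smul_eq_mul, Basis.coord_apply] at h6
      exact (mul_right_cancel₀ hj h6).symm
    rw [h3, map_sum, Finset.smul_sum]
    refine Finset.sum_congr rfl fun j _ => ?_
    rw [map_smul, hs, smul_comm]
    by_cases hj : b.repr (X (b i)) j = 0
    · simp only [hj, zero_smul, smul_zero]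
    · rw [h4 j hj]

end Pool.Agent.NH34.BD
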